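import Mathlib

/-!
The limit points of the ratios `|Aut G| / |End G|` of finite graphs with loops permitted are
exactly the points of `[0, 1]`.
-/

namespace Pool.Agent.Results.MP_e2735d_co.Interval

open Filter

/-- A graph on the vertex set `Fin n`, with loops permitted. -/
structure LGraph (n : ℕ) where
  Adj : Fin n → Fin n → Prop
  symm : ∀ a b, Adj a b → Adj b a

/-- The maps taking related pairs to related pairs. -/
def EndS {V : Type} (r : V → V → Prop) : Set (V → V) := {f | ∀ a b, r a b → r (f a) (f b)}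

/-- The bijections preserving related pairs and unrelated pairs. -/
def AutG {V : Type} (r : V → V → Prop) : Set (Equiv.Perm V) := {f | ∀ a b, r (f a) (f b) ↔ r a b}

/-- The quotient `|Aut| / |End|`. -/
noncomputable def quo {V : Type} (r : V → V → Prop) : ℝ :=
  (Nat.card (AutG r) : ℝ) / (Nat.card (EndS r) : ℝ)

/-- The limiting set. -/
def Lam : Set ℝ :=
  {l | ∃ (n : ℕ → ℕ) (G : ∀ k, LGraph (n k)), Tendsto n atTop atTop ∧
    Tendsto (fun k => quo (G k).Adj) atTop (nhds l)}

/-! ### Homomorphisms between complements of factor-critical triangle-free graphs -/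

section hom

variable {V : Type} [Finite V] {X X' : SimpleGraph V}

/-- Triangle-free. -/
def TF (X : SimpleGraph V) : Prop := ∀ a b c, X.Adj a b → X.Adj b c → ¬ X.Adj a c

/-- Factor-critical. -/
def FC (X : SimpleGraph V) : Prop :=
  ∀ v, ∃ σ : V → V, ∀ u, u ≠ v → X.Adj u (σ u) ∧ σ u ≠ v ∧ σ (σ u) = u

/-- The number of adjacent ordered pairs. -/
noncomputable def ee (X : SimpleGraph V) : ℕ := Nat.card {p : V × V // X.Adj p.1 p.2}

theorem surj (hX : TF X) (hX' : FC X') {f : V → V}
    (hf : ∀ a b, a ≠ b → ¬ X.Adj a b → f a ≠ f b ∧ ¬ X'.Adj (f a) (f b)) :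
    Function.Surjective f := by
  classical
  have := Fintype.ofFinite V
  intro v
  by_contra hv
  push Not at hv
  obtain ⟨σ, hσ⟩ := hX' v
  let c : V → Sym2 V := fun a => s(f a, σ (f a))
  have h1 : (Finset.univ : Finset V).card ≤ 2 * ((Finset.univ : Finset V).image c).card := by
    refine Finset.card_le_mul_card_image _ 2 ?_
    intro p _
    by_contra hcon
    push Not at hcon
    obtain ⟨a, b, d, ha, hb, hd, hab, had, hbd⟩ := Finset.two_lt_card_iff.1 hcon
    have key : ∀ x y, x ∈ Finset.univ.filter (fun a => c a = p) →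
        y ∈ Finset.univ.filter (fun a => c a = p) → x ≠ y → X.Adj x y := by
      intro x y hx hy hxy
      by_contra hn
      have h2 := hf x y hxy hn
      rw [Finset.mem_filter] at hx hy
      have h3 : c x = c y := hx.2.trans hy.2.symm
      rcases Sym2.eq_iff.1 h3 with ⟨h4, -⟩ | ⟨h4, -⟩
      · exact h2.1 h4
      · refine h2.2 ?_
        rw [h4]
        exact (hσ (f y) (hv y)).1.symm
    exact hX a b d (key a b ha hb hab) (key b d hb hd hbd) (key a d ha hd had)
  have h2 : 2 * (((Finset.univ : Finset V).erase v).image fun w => s(w, σ w)).card ≤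
      ((Finset.univ : Finset V).erase v).card := by
    refine Finset.mul_card_image_le_card _ 2 ?_
    intro p hp
    obtain ⟨w, hw, rfl⟩ := Finset.mem_image.1 hp
    have hwv : w ≠ v := (Finset.mem_erase.1 hw).1
    have h3 := hσ w hwv
    have h4 : ({w, σ w} : Finset V) ⊆ ((Finset.univ : Finset V).erase v).filter
        (fun u => s(u, σ u) = s(w, σ w)) := by
      intro u hu
      rw [Finset.mem_insert, Finset.mem_singleton] at hu
      rw [Finset.mem_filter]
      rcases hu with rfl | rfl
      · exact ⟨hw, rfl⟩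
      · refine ⟨Finset.mem_erase.2 ⟨h3.2.1, Finset.mem_univ _⟩, ?_⟩
        rw [h3.2.2, Sym2.eq_swap]
    calc 2 = ({w, σ w} : Finset V).card := (Finset.card_pair h3.1.ne).symm
      _ ≤ _ := Finset.card_le_card h4
  have h3 : ((Finset.univ : Finset V).image c).card ≤
      (((Finset.univ : Finset V).erase v).image fun w => s(w, σ w)).card := by
    refine Finset.card_le_card ?_
    intro p hp
    obtain ⟨a, -, rfl⟩ := Finset.mem_image.1 hp
    exact Finset.mem_image.2 ⟨f a, Finset.mem_erase.2 ⟨hv a, Finset.mem_univ _⟩, rfl⟩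
  have h4 : ((Finset.univ : Finset V).erase v).card < (Finset.univ : Finset V).card :=
    Finset.card_erase_lt_of_mem (Finset.mem_univ _)
  omega

theorem iso (hX : TF X) (hX' : FC X') (he : ee X = ee X') {f : V → V}
    (hf : ∀ a b, a ≠ b → ¬ X.Adj a b → f a ≠ f b ∧ ¬ X'.Adj (f a) (f b)) :
    ∃ φ : X ≃g X', ∀ a, φ a = f a := by
  classical
  have hbij : Function.Bijective f := Function.Surjective.bijective_of_finite (surj hX hX' hf)
  let e := Equiv.ofBijective f hbij
  have h1 : ∀ a b, X'.Adj (f a) (f b) → X.Adj a b := by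
    intro a b h
    by_contra hn
    have hab : a ≠ b := by rintro rfl; exact h.ne rfl
    exact (hf a b hab hn).2 h
  let g : {p : V × V // X'.Adj p.1 p.2} → {p : V × V // X.Adj p.1 p.2} := fun p =>
    ⟨(e.symm p.1.1, e.symm p.1.2), h1 _ _ (by
      have h2 : f (e.symm p.1.1) = p.1.1 := e.apply_symm_apply _
      have h3 : f (e.symm p.1.2) = p.1.2 := e.apply_symm_apply _
      rw [h2, h3]; exact p.2)⟩
  have hg : Function.Injective g := by
    rintro ⟨⟨a, b⟩, h⟩ ⟨⟨a', b'⟩, h'⟩ heq
    have h2 := congrArg Subtype.val heq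
    have h3 : e.symm a = e.symm a' := congrArg Prod.fst h2
    have h4 : e.symm b = e.symm b' := congrArg Prod.snd h2
    have h5 := e.symm.injective h3
    have h6 := e.symm.injective h4
    subst h5 h6
    rfl
  have hg' : Function.Surjective g :=
    (Function.Injective.bijective_of_nat_card_le hg (le_of_eq he)).2
  refine ⟨⟨e, ?_⟩, fun a => rfl⟩
  intro a b
  constructor
  · exact h1 a b
  · intro h
    obtain ⟨⟨⟨a', b'⟩, h'⟩, h2⟩ := hg' ⟨(a, b), h⟩
    have h2 := congrArg Subtype.val h2
    have h3 : e.symm a' = a := congrArg Prod.fst h2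
    have h4 : e.symm b' = b := congrArg Prod.snd h2
    rw [← h3, ← h4, e.apply_symm_apply, e.apply_symm_apply]
    exact h'

theorem conn (hX : TF X) (hX' : FC X) {α : Type} {g : V → α}
    (hg : ∀ a b, a ≠ b → ¬ X.Adj a b → g a = g b) (a b : V) : g a = g b := by
  classical
  have := Fintype.ofFinite V
  by_contra hab
  let P : Finset V := Finset.univ.filter fun u => g u = g a
  let Q : Finset V := Finset.univ.filter fun u => g u ≠ g a
  have hP : ∀ u, u ∈ P ↔ g u = g a := fun u => by simp [P]
  have hQ : ∀ u, u ∈ Q ↔ g u ≠ g a := fun u => by simp [Q]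
  have hPQ : ∀ p q, g p = g a → g q ≠ g a → X.Adj p q := by
    intro p q hp hq
    by_contra hn
    have hpq : p ≠ q := by rintro rfl; exact hq hp
    exact hq ((hg p q hpq hn).symm.trans hp)
  have hPP : ∀ p p', g p = g a → g p' = g a → ¬ X.Adj p p' := by
    intro p p' hp hp' h
    have h1 := hPQ p b hp (Ne.symm hab)
    have h2 := hPQ p' b hp' (Ne.symm hab)
    exact hX p p' b h h2 h1
  have hQQ : ∀ q q', g q ≠ g a → g q' ≠ g a → ¬ X.Adj q q' := by
    intro q q' hq hq' h
    have h1 := (hPQ a q rfl hq).symm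
    have h2 := (hPQ a q' rfl hq').symm
    exact hX q q' a h h2 h1
  have h1 : P.card < Q.card := by
    obtain ⟨σ, hσ⟩ := hX' b
    have hb : b ∈ Q := (hQ b).2 (Ne.symm hab)
    refine lt_of_le_of_lt ?_ (Finset.card_erase_lt_of_mem hb)
    refine Finset.card_le_card_of_injOn σ ?_ ?_
    · intro u hu
      have hu' := (hP u).1 hu
      have hub : u ≠ b := by rintro rfl; exact hab hu'.symm
      have h2 := hσ u hub
      refine Finset.mem_coe.2 (Finset.mem_erase.2 ⟨h2.2.1, (hQ _).2 ?_⟩)
      intro h3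
      exact hPP u (σ u) hu' h3 h2.1
    · intro u hu w hw huw
      have hu' := (hP u).1 hu
      have hw' := (hP w).1 hw
      have hub : u ≠ b := by rintro rfl; exact hab hu'.symm
      have hwb : w ≠ b := by rintro rfl; exact hab hw'.symm
      rw [← (hσ u hub).2.2, ← (hσ w hwb).2.2, huw]
  have h2 : Q.card < P.card := by
    obtain ⟨σ, hσ⟩ := hX' a
    have ha : a ∈ P := (hP a).2 rfl
    refine lt_of_le_of_lt ?_ (Finset.card_erase_lt_of_mem ha)
    refine Finset.card_le_card_of_injOn σ ?_ ?_
    · intro u hu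
      have hu' := (hQ u).1 hu
      have hua : u ≠ a := by rintro rfl; exact hu' rfl
      have h2 := hσ u hua
      refine Finset.mem_coe.2 (Finset.mem_erase.2 ⟨h2.2.1, (hP _).2 ?_⟩)
      by_contra h3
      exact hQQ u (σ u) hu' h3 h2.1
    · intro u hu w hw huw
      have hu' := (hQ u).1 hu
      have hw' := (hQ w).1 hw
      have hua : u ≠ a := by rintro rfl; exact hu' rfl
      have hwa : w ≠ a := by rintro rfl; exact hw' rfl
      rw [← (hσ u hua).2.2, ← (hσ w hwa).2.2, huw]
  omega

end hom

/-! ### The disjoint union with a looped vertex -/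

section union_

variable {V ι : Type} [Finite V] [Nonempty V] [Finite ι] (X : ι → SimpleGraph V)

/-- A looped vertex and the complements of the graphs `X i`. -/
def GG : Option (ι × V) → Option (ι × V) → Prop
  | none, none => True
  | some p, some p' => p.1 = p'.1 ∧ p.2 ≠ p'.2 ∧ ¬ (X p.1).Adj p.2 p'.2
  | none, some _ => False
  | some _, none => False

omit [Finite V] [Nonempty V] [Finite ι] in
theorem GG_symm (a b : Option (ι × V)) (h : GG X a b) : GG X b a := by
  rcases a with _ | ⟨i, a⟩ <;> rcases b with _ | ⟨j, b⟩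
  · exact h
  · exact h
  · exact h
  · obtain ⟨h1, h2, h3⟩ := h
    simp only at h1 h2 h3
    subst h1
    exact ⟨rfl, Ne.symm h2, fun h => h3 h.symm⟩

/-- The endomorphism given by automorphisms of some parts. -/
def mk (o : ∀ i, Option (X i ≃g X i)) : Option (ι × V) → Option (ι × V)
  | none => none
  | some p => (o p.1).map fun σ => (p.1, σ p.2)

variable {X}

omit [Finite ι] in
theorem bij_end (h1 : ∀ i, TF (X i)) (h2 : ∀ i, FC (X i)) (h3 : ∀ i j, ee (X i) = ee (X j))
    (h4 : ∀ i j, Nonempty (X i ≃g X j) → i = j) {f : Option (ι × V) → Option (ι × V)}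
    (hf : f ∈ EndS (GG X)) : ∃ o, mk X o = f := by
  have hnone : f none = none := by
    have h := hf none none trivial
    rcases hn : f none with _ | ⟨i, a⟩
    · rfl
    · rw [hn] at h
      exact absurd rfl h.2.1
  have key : ∀ i, ∃ o : Option (X i ≃g X i), ∀ a, f (some (i, a)) = o.map fun σ => (i, σ a) := by
    intro i
    obtain ⟨a₀⟩ := (inferInstance : Nonempty V)
    have hc : ∀ a, (f (some (i, a))).map Prod.fst = (f (some (i, a₀))).map Prod.fst := by
      intro a
      refine conn (h1 i) (h2 i) (g := fun a => (f (some (i, a))).map Prod.fst) ?_ a a₀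
      intro a b hab hn
      have h := hf (some (i, a)) (some (i, b)) ⟨rfl, hab, hn⟩
      show (f (some (i, a))).map Prod.fst = (f (some (i, b))).map Prod.fst
      rcases ha : f (some (i, a)) with _ | ⟨j, a'⟩ <;> rcases hb : f (some (i, b)) with _ | ⟨j', b'⟩
      · rfl
      · rw [ha, hb] at h; exact h.elim
      · rw [ha, hb] at h; exact h.elim
      · rw [ha, hb] at h
        exact congrArg some h.1
    rcases h0 : f (some (i, a₀)) with _ | ⟨j, a₀'⟩
    · refine ⟨none, fun a => ?_⟩
      have h := hc a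
      rw [h0] at h
      exact Option.map_eq_none_iff.1 h
    · rw [h0] at hc
      have hx : ∀ a, ∃ b, f (some (i, a)) = some (j, b) := by
        intro a
        have h := hc a
        rcases ha : f (some (i, a)) with _ | ⟨j', b⟩
        · rw [ha] at h; cases h
        · rw [ha] at h
          have h' : j' = j := Option.some.inj h
          exact ⟨b, by rw [h']⟩
      choose g hg using hx
      obtain ⟨φ, hφ⟩ := iso (X := X i) (X' := X j) (h1 i) (h2 j) (h3 i j) (f := g) (by
        intro a b hab hn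
        have h := hf (some (i, a)) (some (i, b)) ⟨rfl, hab, hn⟩
        rw [hg a, hg b] at h
        exact ⟨h.2.1, h.2.2⟩)
      have hij := h4 i j ⟨φ⟩
      subst hij
      refine ⟨some φ, fun a => ?_⟩
      rw [hg a, Option.map_some, hφ a]
  choose o ho using key
  refine ⟨o, ?_⟩
  funext x
  rcases x with _ | ⟨i, a⟩
  · exact hnone.symm
  · exact (ho i a).symm

omit [Finite V] [Nonempty V] [Finite ι] in
theorem mk_mem (o : ∀ i, Option (X i ≃g X i)) : mk X o ∈ EndS (GG X) := by
  rintro (_ | ⟨i, a⟩) (_ | ⟨j, b⟩) h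
  · trivial
  · exact h.elim
  · exact h.elim
  · obtain ⟨h1, h2, h3⟩ := h
    simp only at h1 h2 h3
    subst h1
    show GG X ((o i).map fun σ => (i, σ a)) ((o i).map fun σ => (i, σ b))
    rcases o i with _ | φ
    · trivial
    · refine ⟨rfl, fun h => h2 (φ.injective h), fun h => h3 ?_⟩
      exact φ.map_adj_iff.1 h

omit [Finite V] [Finite ι] in
theorem mk_injective : Function.Injective (mk X) := by
  intro o o' h
  obtain ⟨a₀⟩ := (inferInstance : Nonempty V)
  funext i
  have h1 : ∀ a, (o i).map (fun σ => (i, σ a)) = (o' i).map fun σ => (i, σ a) := fun a =>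
    congrFun h (some (i, a))
  rcases h2 : o i with _ | φ <;> rcases h3 : o' i with _ | ψ
  · rfl
  · have := h1 a₀; rw [h2, h3] at this; cases this
  · have := h1 a₀; rw [h2, h3] at this; cases this
  · congr 1
    refine RelIso.ext fun a => ?_
    have h4 := h1 a
    rw [h2, h3] at h4
    have h5 := Option.some.inj h4
    exact congrArg Prod.snd h5

omit [Finite ι] in
theorem card_end (h1 : ∀ i, TF (X i)) (h2 : ∀ i, FC (X i)) (h3 : ∀ i j, ee (X i) = ee (X j))
    (h4 : ∀ i j, Nonempty (X i ≃g X j) → i = j) :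
    Nat.card (EndS (GG X)) = Nat.card (∀ i, Option (X i ≃g X i)) := by
  symm
  refine Nat.card_eq_of_bijective (fun o => (⟨mk X o, mk_mem o⟩ : EndS (GG X))) ⟨?_, ?_⟩
  · intro o o' h
    exact mk_injective (congrArg Subtype.val h)
  · rintro ⟨f, hf⟩
    obtain ⟨o, ho⟩ := bij_end h1 h2 h3 h4 hf
    exact ⟨o, Subtype.ext ho⟩

/-- The automorphism given by automorphisms of the parts. -/
def mkA (o : ∀ i, X i ≃g X i) : Equiv.Perm (Option (ι × V)) where
  toFun := mk X fun i => some (o i)
  invFun := mk X fun i => some (o i).symm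
  left_inv := by
    rintro (_ | ⟨i, a⟩)
    · rfl
    · show some (i, (o i).symm (o i a)) = _
      rw [RelIso.symm_apply_apply]
  right_inv := by
    rintro (_ | ⟨i, a⟩)
    · rfl
    · show some (i, o i ((o i).symm a)) = _
      rw [RelIso.apply_symm_apply]

omit [Finite ι] in
theorem card_aut (h1 : ∀ i, TF (X i)) (h2 : ∀ i, FC (X i)) (h3 : ∀ i j, ee (X i) = ee (X j))
    (h4 : ∀ i j, Nonempty (X i ≃g X j) → i = j) :
    Nat.card (AutG (GG X)) = Nat.card (∀ i, X i ≃g X i) := by
  symm
  have hm : ∀ o : ∀ i, X i ≃g X i, mkA o ∈ AutG (GG X) := by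
    intro o a b
    constructor
    · intro h
      have h' := mk_mem (X := X) (fun i => some (o i).symm) _ _ h
      have h5 : ∀ c, mk X (fun i => some (o i).symm) (mkA o c) = c := fun c =>
        (mkA o).left_inv c
      rw [h5, h5] at h'
      exact h'
    · intro h
      exact mk_mem (X := X) (fun i => some (o i)) _ _ h
  refine Nat.card_eq_of_bijective (fun o => (⟨mkA o, hm o⟩ : AutG (GG X))) ⟨?_, ?_⟩
  · intro o o' h
    have h5 : mkA o = mkA o' := congrArg Subtype.val h
    have h6 : mk X (fun i => some (o i)) = mk X fun i => some (o' i) :=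
      congrArg (fun e : Equiv.Perm (Option (ι × V)) => e.toFun) h5
    have h7 := mk_injective h6
    funext i
    exact Option.some.inj (congrFun h7 i)
  · rintro ⟨f, hf⟩
    obtain ⟨o, ho⟩ := bij_end h1 h2 h3 h4 (f := f) fun a b h => (hf a b).2 h
    have h5 : ∀ i, ∃ φ, o i = some φ := by
      intro i
      rcases hi : o i with _ | φ
      · exfalso
        obtain ⟨a₀⟩ := (inferInstance : Nonempty V)
        have h6 : f none = f (some (i, a₀)) := by
          rw [← ho]
          show none = (o i).map _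
          rw [hi]
          rfl
        exact absurd (f.injective h6) (by simp)
      · exact ⟨φ, rfl⟩
    choose φ hφ using h5
    refine ⟨φ, Subtype.ext ?_⟩
    apply Equiv.ext
    intro x
    show mk X (fun i => some (φ i)) x = f x
    rw [← ho]
    congr 1
    funext i
    exact (hφ i).symm

omit [Nonempty V] in
theorem finite_iso {Y Y' : SimpleGraph V} : Finite (Y ≃g Y') :=
  Finite.of_injective (fun e : Y ≃g Y' => (e : V → V)) fun _ _ h => RelIso.ext (congrFun h)

omit [Finite ι] in
theorem quo_GG [Fintype ι] (h1 : ∀ i, TF (X i)) (h2 : ∀ i, FC (X i))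
    (h3 : ∀ i j, ee (X i) = ee (X j)) (h4 : ∀ i j, Nonempty (X i ≃g X j) → i = j) :
    quo (GG X) = ∏ i, (Nat.card (X i ≃g X i) : ℝ) / (Nat.card (X i ≃g X i) + 1 : ℝ) := by
  unfold quo
  rw [card_end h1 h2 h3 h4, card_aut h1 h2 h3 h4, Nat.card_pi, Nat.card_pi,
    Finset.prod_div_distrib]
  push_cast
  congr 1
  refine Finset.prod_congr rfl fun i _ => ?_
  have : Finite (X i ≃g X i) := finite_iso
  rw [Finite.card_option]
  push_cast
  rfl

end union_

/-! ### The family -/

section family

variable {P : Type} (R : P → P → Prop)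

/-- One half of the adjacency relation. -/
def base : Option (P × Fin 4) → Option (P × Fin 4) → Prop
  | none, none => False
  | none, some p => p.2 = 0 ∨ p.2 = 3
  | some p, some p' =>
      (p.1 = p'.1 ∧ ((p.2 = 0 ∧ p'.2 = 1) ∨ (p.2 = 2 ∧ p'.2 = 3))) ∨
        (p.2 = 1 ∧ p'.2 = 2 ∧ (p.1 = p'.1 ∨ R p.1 p'.1))
  | some _, none => False

/-- Flowers of pentagons with additional edges. -/
def XX : SimpleGraph (Option (P × Fin 4)) := SimpleGraph.fromRel (base R)

/-- The homomorphism to the pentagon. -/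
def col : Option (P × Fin 4) → ZMod 5
  | none => 0
  | some p => ((p.2 : ℕ) : ZMod 5) + 1

theorem base_col {a b : Option (P × Fin 4)} (h : base R a b) :
    col b = col a + 1 ∨ col a = col b + 1 := by
  rcases a with _ | ⟨i, j⟩ <;> rcases b with _ | ⟨i', j'⟩
  · exact h.elim
  · have h' : j' = 0 ∨ j' = 3 := h
    rcases h' with rfl | rfl
    · left; show ((0 : ℕ) : ZMod 5) + 1 = 0 + 1; decide
    · right; show (0 : ZMod 5) = ((3 : ℕ) : ZMod 5) + 1 + 1; decide
  · exact h.elim
  · have h' : (i = i' ∧ ((j = 0 ∧ j' = 1) ∨ (j = 2 ∧ j' = 3))) ∨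
        (j = 1 ∧ j' = 2 ∧ (i = i' ∨ R i i')) := h
    left
    rcases h' with ⟨-, ⟨rfl, rfl⟩ | ⟨rfl, rfl⟩⟩ | ⟨rfl, rfl, -⟩
    · show ((1 : ℕ) : ZMod 5) + 1 = ((0 : ℕ) : ZMod 5) + 1 + 1; decide
    · show ((3 : ℕ) : ZMod 5) + 1 = ((2 : ℕ) : ZMod 5) + 1 + 1; decide
    · show ((2 : ℕ) : ZMod 5) + 1 = ((1 : ℕ) : ZMod 5) + 1 + 1; decide

theorem adj_col {a b : Option (P × Fin 4)} (h : (XX R).Adj a b) :
    col b = col a + 1 ∨ col a = col b + 1 := by
  rw [XX, SimpleGraph.fromRel_adj] at h
  rcases h.2 with h | h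
  · exact base_col R h
  · exact (base_col R h).symm

theorem XX_TF : TF (XX R) := by
  intro a b c h1 h2 h3
  have h1 := adj_col R h1
  have h2 := adj_col R h2
  have h3 := adj_col R h3
  generalize col a = x at *
  generalize col b = y at *
  generalize col c = z at *
  revert x y z
  decide

theorem XX_adj_of {a b : Option (P × Fin 4)} (h : base R a b) : (XX R).Adj a b := by
  rw [XX, SimpleGraph.fromRel_adj]
  refine ⟨?_, Or.inl h⟩
  rintro rfl
  have := base_col R h
  generalize col a = x at *
  revert x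
  decide

theorem adj_none {i : P} {j : Fin 4} (h : j = 0 ∨ j = 3) : (XX R).Adj none (some (i, j)) :=
  XX_adj_of R h

theorem adj_01 {i : P} : (XX R).Adj (some (i, 0)) (some (i, 1)) :=
  XX_adj_of R (Or.inl ⟨rfl, Or.inl ⟨rfl, rfl⟩⟩)

theorem adj_12 {i : P} : (XX R).Adj (some (i, 1)) (some (i, 2)) :=
  XX_adj_of R (Or.inr ⟨rfl, rfl, Or.inl rfl⟩)

theorem adj_23 {i : P} : (XX R).Adj (some (i, 2)) (some (i, 3)) :=
  XX_adj_of R (Or.inl ⟨rfl, Or.inr ⟨rfl, rfl⟩⟩)

/-- The partner in a petal not containing the removed vertex. -/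
def par : Fin 4 → Fin 4
  | 0 => 1
  | 1 => 0
  | 2 => 3
  | 3 => 2

theorem par_par : ∀ j, par (par j) = j := by decide

theorem adj_par {i : P} (j : Fin 4) : (XX R).Adj (some (i, j)) (some (i, par j)) := by
  fin_cases j
  · exact adj_01 R
  · exact (adj_01 R).symm
  · exact adj_23 R
  · exact (adj_23 R).symm

/-- The matching of the pentagon without one of its vertices other than the centre, with `none`
the centre. -/
def parv : Fin 4 → Option (Fin 4) → Option (Fin 4)
  | 0, none => some 3
  | 0, some 0 => none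
  | 0, some 1 => some 2
  | 0, some 2 => some 1
  | 0, some 3 => none
  | 1, none => some 0
  | 1, some 0 => none
  | 1, some 1 => none
  | 1, some 2 => some 3
  | 1, some 3 => some 2
  | 2, none => some 3
  | 2, some 0 => some 1
  | 2, some 1 => some 0
  | 2, some 2 => none
  | 2, some 3 => none
  | 3, none => some 0
  | 3, some 0 => none
  | 3, some 1 => some 2
  | 3, some 2 => some 1
  | 3, some 3 => none

theorem parv_spec : ∀ (j : Fin 4) (u : Option (Fin 4)), u ≠ some j →
    parv j u ≠ some j ∧ parv j (parv j u) = u := by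
  decide

theorem parv_adj (i : P) (j : Fin 4) (u : Option (Fin 4)) (hu : u ≠ some j) :
    (XX R).Adj (u.map fun k => (i, k)) ((parv j u).map fun k => (i, k)) := by
  rcases u with _ | u
  · fin_cases j
    · exact adj_none R (Or.inr rfl)
    · exact adj_none R (Or.inl rfl)
    · exact adj_none R (Or.inr rfl)
    · exact adj_none R (Or.inl rfl)
  · fin_cases j <;> fin_cases u
    · exact absurd rfl hu
    · exact adj_12 R
    · exact (adj_12 R).symm
    · exact (adj_none R (Or.inr rfl)).symm
    · exact (adj_none R (Or.inl rfl)).symm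
    · exact absurd rfl hu
    · exact adj_23 R
    · exact (adj_23 R).symm
    · exact adj_01 R
    · exact (adj_01 R).symm
    · exact absurd rfl hu
    · exact (adj_none R (Or.inr rfl)).symm
    · exact (adj_none R (Or.inl rfl)).symm
    · exact adj_12 R
    · exact (adj_12 R).symm
    · exact absurd rfl hu

theorem XX_FC : FC (XX R) := by
  classical
  rintro (_ | ⟨i₀, j₀⟩)
  · refine ⟨fun u => u.map fun p => (p.1, par p.2), ?_⟩
    rintro (_ | ⟨i, j⟩) hu
    · exact absurd rfl hu
    · refine ⟨adj_par R j, by simp, ?_⟩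
      show some (i, par (par j)) = some (i, j)
      rw [par_par]
  · refine ⟨fun u => match u with
      | none => (parv j₀ none).map fun k => (i₀, k)
      | some p => if p.1 = i₀ then (parv j₀ (some p.2)).map fun k => (i₀, k)
          else some (p.1, par p.2), ?_⟩
    have key : ∀ u : Option (Fin 4), u ≠ some j₀ →
        (match (u.map fun k => (i₀, k) : Option (P × Fin 4)) with
          | none => (parv j₀ none).map fun k => (i₀, k)
          | some p => if p.1 = i₀ then (parv j₀ (some p.2)).map fun k => (i₀, k)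
            else some (p.1, par p.2)) = (parv j₀ u).map fun k => (i₀, k) := by
      intro u _
      rcases u with _ | u
      · rfl
      · exact if_pos rfl
    have main : ∀ u : Option (Fin 4), u ≠ some j₀ →
        (parv j₀ u).map (fun k => (i₀, k)) ≠ some (i₀, j₀) := by
      intro u hu h
      have h1 := (parv_spec j₀ u hu).1
      rcases h2 : parv j₀ u with _ | k
      · rw [h2] at h; cases h
      · rw [h2] at h
        have h3 := congrArg Prod.snd (Option.some.inj h)
        simp only at h3
        rw [h2, h3] at h1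
        exact h1 rfl
    rintro (_ | ⟨i, j⟩) hu
    · have hu' : (none : Option (Fin 4)) ≠ some j₀ := by simp
      have h1 := parv_spec j₀ none hu'
      refine ⟨parv_adj R i₀ j₀ none hu', main none hu', ?_⟩
      exact (key (parv j₀ none) h1.1).trans (congrArg (Option.map fun k => (i₀, k)) h1.2)
    · by_cases hi : i = i₀
      · subst hi
        have hu' : (some j : Option (Fin 4)) ≠ some j₀ := by
          intro h
          apply hu
          rw [Option.some.inj h]
        have h1 := parv_spec j₀ (some j) hu'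
        simp only [if_true]
        refine ⟨parv_adj R i j₀ (some j) hu', main (some j) hu', ?_⟩
        exact (key (parv j₀ (some j)) h1.1).trans (congrArg (Option.map fun k => (i, k)) h1.2)
      · simp only [if_neg hi]
        refine ⟨adj_par R j, ?_, ?_⟩
        · intro h
          exact hi (congrArg Prod.fst (Option.some.inj h))
        · rw [par_par]

/-- Relabelling the petals. -/
def relabel (e : P ≃ P) (he : ∀ i j, R (e i) (e j) ↔ R i j) : XX R ≃g XX R where
  toEquiv := Equiv.optionCongr (Equiv.prodCongr e (Equiv.refl _))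
  map_rel_iff' := by
    have h : ∀ a b : Option (P × Fin 4), base R
        (Equiv.optionCongr (Equiv.prodCongr e (Equiv.refl _)) a)
        (Equiv.optionCongr (Equiv.prodCongr e (Equiv.refl _)) b) ↔ base R a b := by
      rintro (_ | ⟨i, j⟩) (_ | ⟨i', j'⟩)
      · exact Iff.rfl
      · exact Iff.rfl
      · exact Iff.rfl
      · show (e i = e i' ∧ _) ∨ (j = 1 ∧ j' = 2 ∧ (e i = e i' ∨ R (e i) (e i'))) ↔
          (i = i' ∧ _) ∨ (j = 1 ∧ j' = 2 ∧ (i = i' ∨ R i i'))
        rw [e.injective.eq_iff, he]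
        exact Iff.rfl
    intro a b
    rw [XX, SimpleGraph.fromRel_adj, SimpleGraph.fromRel_adj, h, h, (Equiv.injective _).ne_iff]

end family

section family2

variable {t m : ℕ}

/-- The relation on the petals given by a matrix. -/
def RR (r : Fin t × Fin t → Bool) : Fin t ⊕ (Fin t ⊕ Fin m) → Fin t ⊕ (Fin t ⊕ Fin m) → Prop
  | Sum.inl a, Sum.inr (Sum.inl b) => r (a, b) = true
  | _, _ => False

theorem XX_injective : Function.Injective fun r : Fin t × Fin t → Bool => XX (RR (m := m) r) := by
  intro r r' h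
  have key : ∀ (r : Fin t × Fin t → Bool) a b,
      (XX (RR (m := m) r)).Adj (some (Sum.inl a, 1)) (some (Sum.inr (Sum.inl b), 2)) ↔
        r (a, b) = true := by
    intro r a b
    rw [XX, SimpleGraph.fromRel_adj]
    constructor
    · rintro ⟨-, (⟨h, -⟩ | ⟨-, -, h | h⟩) | (⟨h, -⟩ | ⟨h, -⟩)⟩
      · cases h
      · cases h
      · exact h
      · cases h
      · cases h
    · intro h
      exact ⟨by simp, Or.inl (Or.inr ⟨rfl, rfl, Or.inr h⟩)⟩
  funext ⟨a, b⟩
  have h' : XX (RR (m := m) r) = XX (RR (m := m) r') := h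
  have h1 := key r a b
  rw [h', key r' a b] at h1
  exact (Bool.eq_iff_iff.2 h1).symm

theorem card_aut_ge (r : Fin t × Fin t → Bool) :
    m ≤ Nat.card (XX (RR (m := m) r) ≃g XX (RR (m := m) r)) := by
  have hfin : Finite (XX (RR (m := m) r) ≃g XX (RR (m := m) r)) := finite_iso
  have h1 : m ≤ Nat.card (Equiv.Perm (Fin m)) := by
    rw [Nat.card_perm, Nat.card_eq_fintype_card, Fintype.card_fin]
    exact Nat.self_le_factorial m
  refine h1.trans ?_
  refine Nat.card_le_card_of_injective (fun π => relabel (RR (m := m) r)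
    (Equiv.sumCongr (Equiv.refl _) (Equiv.sumCongr (Equiv.refl _) π)) ?_) ?_
  · rintro (a | a | a) (b | b | b) <;> exact Iff.rfl
  · intro π π' h
    refine Equiv.ext fun k => ?_
    have h1 := congrArg (fun φ : XX (RR (m := m) r) ≃g XX (RR (m := m) r) =>
      φ (some (Sum.inr (Sum.inr k), 0))) h
    have h2 : (some (Sum.inr (Sum.inr (π k)), 0) :
        Option ((Fin t ⊕ (Fin t ⊕ Fin m)) × Fin 4)) =
        some (Sum.inr (Sum.inr (π' k)), 0) := h1
    have h3 := congrArg Prod.fst (Option.some.inj h2)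
    exact Sum.inr.inj (Sum.inr.inj h3)

end family2

/-! ### Representatives -/

theorem reps {V α : Type} [Finite V] [Finite α] (X : α → SimpleGraph V)
    (hX : Function.Injective X) :
    ∃ (Q : Type) (_ : Fintype Q) (rep : Q → α),
      (∀ i j, Nonempty (X (rep i) ≃g X (rep j)) → i = j) ∧
      (Nat.card α : ℝ) ≤ (Nat.card V).factorial *
        ∑ q, 1 / (Nat.card (X (rep q) ≃g X (rep q)) : ℝ) := by
  classical
  have := Fintype.ofFinite α
  let S : Setoid α :=
    { r := fun a b => Nonempty (X a ≃g X b)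
      iseqv := ⟨fun a => ⟨RelIso.refl _⟩, fun ⟨e⟩ => ⟨e.symm⟩, fun ⟨e⟩ ⟨e'⟩ => ⟨e.trans e'⟩⟩ }
  have hfin : Finite (Quotient S) := Quotient.finite S
  have hft : Fintype (Quotient S) := Fintype.ofFinite _
  refine ⟨Quotient S, hft, Quotient.out, ?_, ?_⟩
  · intro i j h
    have h1 : (⟦i.out⟧ : Quotient S) = ⟦j.out⟧ := Quotient.sound h
    rwa [Quotient.out_eq, Quotient.out_eq] at h1
  · have hq : ∀ q : Quotient S, Nat.card {a : α // (⟦a⟧ : Quotient S) = q} *
        Nat.card (X q.out ≃g X q.out) ≤ (Nat.card V).factorial := by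
      intro q
      rw [← Nat.card_prod, ← Nat.card_perm]
      have hφ : ∀ a : {a : α // (⟦a⟧ : Quotient S) = q}, Nonempty (X q.out ≃g X a.1) := by
        intro a
        have h1 : (⟦q.out⟧ : Quotient S) = ⟦a.1⟧ := by rw [Quotient.out_eq, a.2]
        exact Quotient.exact h1
      let φ : ∀ a : {a : α // (⟦a⟧ : Quotient S) = q}, X q.out ≃g X a.1 := fun a =>
        Classical.choice (hφ a)
      refine Nat.card_le_card_of_injective (fun p => (p.2.trans (φ p.1)).toEquiv) ?_
      rintro ⟨a, α₁⟩ ⟨b, α₂⟩ h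
      have h1 : (α₁.trans (φ a)).toEquiv = (α₂.trans (φ b)).toEquiv := h
      have h2 : X a.1 = X b.1 := by
        ext x y
        have e1 := (α₁.trans (φ a)).symm.map_rel_iff (a := x) (b := y)
        have e2 := (α₂.trans (φ b)).symm.map_rel_iff (a := x) (b := y)
        have e3 : ∀ x, (α₁.trans (φ a)).symm x = (α₂.trans (φ b)).symm x := by
          intro x
          show (α₁.trans (φ a)).toEquiv.symm x = (α₂.trans (φ b)).toEquiv.symm x
          rw [h1]
        rw [← e1, ← e2, e3, e3]
      have h3 : a = b := Subtype.ext (hX h2)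
      subst h3
      congr 1
      refine RelIso.ext fun x => ?_
      have h4 := congrArg (fun e : Equiv.Perm V => e x) h1
      exact (φ a).injective h4
    have hpos : ∀ q : Quotient S, (0 : ℝ) < Nat.card (X q.out ≃g X q.out) := by
      intro q
      have h1 : Finite (X q.out ≃g X q.out) := finite_iso
      have h2 : Nonempty (X q.out ≃g X q.out) := ⟨RelIso.refl _⟩
      exact Nat.cast_pos.2 Nat.card_pos
    have hsum : Nat.card α = ∑ q : Quotient S, Nat.card {a : α // (⟦a⟧ : Quotient S) = q} := by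
      rw [← Nat.card_sigma]
      exact Nat.card_congr (Equiv.sigmaFiberEquiv (fun a : α => (⟦a⟧ : Quotient S))).symm
    rw [hsum, Finset.mul_sum]
    push_cast
    refine Finset.sum_le_sum fun q _ => ?_
    rw [mul_one_div, le_div_iff₀ (hpos q)]
    exact_mod_cast hq q

/-! ### Greedy choice -/

theorem greedy {Q : Type} (b : Q → ℝ) (δ : ℝ) (hb0 : ∀ q, 0 ≤ b q) (hb1 : ∀ q, b q ≤ 1)
    (hbδ : ∀ q, 1 - δ ≤ b q) (hδ : 0 ≤ δ) {l : ℝ} (hl : l ≤ 1) (U : Finset Q)
    (hU : ∏ q ∈ U, b q ≤ l) : ∃ S ⊆ U, |∏ q ∈ S, b q - l| ≤ δ := by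
  classical
  induction U using Finset.induction_on with
  | empty =>
    refine ⟨∅, Finset.Subset.refl _, ?_⟩
    rw [Finset.prod_empty] at hU ⊢
    have : l = 1 := le_antisymm hl hU
    rw [this, sub_self, abs_zero]
    exact hδ
  | insert u U hu ih =>
    by_cases h : ∏ q ∈ U, b q ≤ l
    · obtain ⟨S, hS, h1⟩ := ih h
      exact ⟨S, hS.trans (Finset.subset_insert _ _), h1⟩
    · refine ⟨insert u U, Finset.Subset.refl _, ?_⟩
      push Not at h
      have h1 : ∏ q ∈ U, b q ≤ 1 := Finset.prod_le_one (fun q _ => hb0 q) fun q _ => hb1 q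
      have h2 : 0 ≤ ∏ q ∈ U, b q := Finset.prod_nonneg fun q _ => hb0 q
      rw [Finset.prod_insert hu] at hU ⊢
      rw [abs_le]
      constructor
      · have h3 := mul_le_mul_of_nonneg_right (hbδ u) h2
        nlinarith
      · linarith

theorem prod_le {Q : Type} (a : Q → ℝ) (ha : ∀ q, 0 < a q) (U : Finset Q) :
    (∏ q ∈ U, a q / (a q + 1)) * (1 + ∑ q ∈ U, 1 / a q) ≤ 1 := by
  classical
  induction U using Finset.induction_on with
  | empty => simp
  | insert u U hu ih =>
    rw [Finset.prod_insert hu, Finset.sum_insert hu]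
    have h1 : 0 ≤ ∏ q ∈ U, a q / (a q + 1) :=
      Finset.prod_nonneg fun q _ => div_nonneg (ha q).le (by linarith [ha q])
    have h2 : 0 ≤ ∑ q ∈ U, 1 / a q := Finset.sum_nonneg fun q _ => by
      have := ha q; positivity
    have h3 := ha u
    have h4 : a u / (a u + 1) * (1 + (1 / a u + ∑ q ∈ U, 1 / a q)) ≤ 1 + ∑ q ∈ U, 1 / a q := by
      rw [div_mul_eq_mul_div, div_le_iff₀ (by linarith)]
      have h5 : a u * (1 / a u) = 1 := by field_simp
      nlinarith
    calc a u / (a u + 1) * (∏ q ∈ U, a q / (a q + 1)) * (1 + (1 / a u + ∑ q ∈ U, 1 / a q))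
        = (∏ q ∈ U, a q / (a q + 1)) * (a u / (a u + 1) * (1 + (1 / a u + ∑ q ∈ U, 1 / a q))) := by
          ring
      _ ≤ (∏ q ∈ U, a q / (a q + 1)) * (1 + ∑ q ∈ U, 1 / a q) :=
          mul_le_mul_of_nonneg_left h4 h1
      _ ≤ 1 := ih

/-! ### Growth -/

theorem growth (m N C : ℕ) : ∃ t, N ≤ t ∧
    ((4 * (t + (t + m)) + 1) ^ 2 + 1) * (C * (4 * (t + (t + m)) + 1).factorial) ≤ 2 ^ (t * t) := by
  have h0 : ∀ s, 9 ≤ s → 13 * (s + 4) ≤ 2 ^ s := by
    intro s hs
    induction s, hs using Nat.le_induction with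
    | base => norm_num
    | succ s hs ih => rw [pow_succ]; omega
  let s := 9 + N + C + (4 * m + 1)
  have hs : s < 2 ^ s := Nat.lt_two_pow_self
  have h1 := h0 s (by show 9 ≤ 9 + N + C + (4 * m + 1); omega)
  have hsdef : s = 9 + N + C + (4 * m + 1) := rfl
  generalize s = s at *
  set t := 2 ^ s with ht
  refine ⟨t, by omega, ?_⟩
  set n := 4 * (t + (t + m)) + 1 with hn
  have hn1 : n ≤ 2 ^ (s + 4) := by rw [pow_add, ← ht]; omega
  have hn2 : n ^ 2 + 1 ≤ n ^ 3 := by
    have : 2 ≤ n := by omega
    nlinarith [pow_pos (by omega : 0 < n) 2]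
  have hn3 : n.factorial ≤ n ^ n := Nat.factorial_le_pow n
  have hC : C ≤ n := by omega
  calc (n ^ 2 + 1) * (C * n.factorial) ≤ n ^ 3 * (n * n ^ n) :=
        Nat.mul_le_mul hn2 (Nat.mul_le_mul hC hn3)
    _ = n ^ (n + 4) := by ring
    _ ≤ (2 ^ (s + 4)) ^ (n + 4) := Nat.pow_le_pow_left hn1 _
    _ = 2 ^ ((s + 4) * (n + 4)) := by rw [pow_mul]
    _ ≤ 2 ^ (t * t) := by
        refine Nat.pow_le_pow_right (by norm_num) ?_
        have h2 : n + 4 ≤ 13 * t := by omega
        calc (s + 4) * (n + 4) ≤ (s + 4) * (13 * t) := Nat.mul_le_mul_left _ h2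
          _ = 13 * (s + 4) * t := by ring
          _ ≤ t * t := Nat.mul_le_mul_right _ h1

/-! ### The main construction -/

theorem quo_congr {V W : Type} (e : V ≃ W) (r : V → V → Prop) :
    quo (fun a b => r (e.symm a) (e.symm b)) = quo r := by
  unfold quo
  congr 2
  · refine Nat.card_congr (Equiv.subtypeEquiv (Equiv.permCongr e.symm) ?_)
    intro σ
    constructor
    · intro h a b
      have := h (e a) (e b)
      simpa using this
    · intro h a b
      have := h (e.symm a) (e.symm b)
      simpa using this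
  · refine Nat.card_congr (Equiv.subtypeEquiv (Equiv.arrowCongr e.symm e.symm) ?_)
    intro f
    constructor
    · intro h a b hab
      have := h (e a) (e b)
      simpa using this (by simpa using hab)
    · intro h a b hab
      have := h (e.symm a) (e.symm b) hab
      simpa using this

theorem main {l : ℝ} (h0 : 0 ≤ l) (h1 : l ≤ 1) {ε : ℝ} (hε : 0 < ε) (N : ℕ) :
    ∃ (n : ℕ) (G : LGraph n), N ≤ n ∧ |quo G.Adj - l| ≤ 2 * ε := by
  classical
  obtain ⟨m, hm⟩ := exists_nat_gt (1 / ε)
  have hmpos : (0 : ℝ) < m := lt_trans (by positivity) hm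
  obtain ⟨t, hNt, ht⟩ := growth m N m
  let V := Option ((Fin t ⊕ (Fin t ⊕ Fin m)) × Fin 4)
  have hV : Nat.card V = 4 * (t + (t + m)) + 1 := by
    show Nat.card (Option ((Fin t ⊕ (Fin t ⊕ Fin m)) × Fin 4)) = _
    rw [Finite.card_option, Nat.card_prod, Nat.card_sum, Nat.card_sum]
    simp only [Nat.card_eq_fintype_card, Fintype.card_fin]
    ring
  let Y : (Fin t × Fin t → Bool) → SimpleGraph V := fun r => XX (RR (m := m) r)
  have hee : ∀ X : SimpleGraph V, ee X ≤ Nat.card V ^ 2 := by
    intro X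
    have h2 : ee X ≤ Nat.card (V × V) :=
      Nat.card_le_card_of_injective Subtype.val Subtype.val_injective
    rw [Nat.card_prod] at h2
    rwa [sq]
  obtain ⟨s, hs⟩ : ∃ s, m * (Nat.card V).factorial ≤ Nat.card {r // ee (Y r) = s} := by
    obtain ⟨s, -, hs⟩ := Finset.exists_le_card_fiber_of_mul_le_card_of_maps_to
      (s := (Finset.univ : Finset (Fin t × Fin t → Bool)))
      (t := Finset.range (Nat.card V ^ 2 + 1)) (f := fun r => ee (Y r))
      (n := m * (Nat.card V).factorial)
      (fun r _ => Finset.mem_range.2 (Nat.lt_succ_of_le (hee _)))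
      ⟨0, Finset.mem_range.2 (Nat.succ_pos _)⟩ (by
        rw [Finset.card_range, Finset.card_univ, Fintype.card_fun, Fintype.card_prod,
          Fintype.card_fin, Fintype.card_bool, hV]
        exact ht)
    refine ⟨s, hs.trans (le_of_eq ?_)⟩
    rw [Nat.card_eq_fintype_card, Fintype.card_subtype]
  obtain ⟨Q, hQ, rep, hrep1, hrep2⟩ := reps (fun r : {r // ee (Y r) = s} => Y r.1)
    (fun r r' h => Subtype.ext (XX_injective h))
  let a : Q → ℝ := fun q => Nat.card (Y (rep q).1 ≃g Y (rep q).1)
  have ham : ∀ q, (m : ℝ) ≤ a q := fun q => Nat.cast_le.2 (card_aut_ge _)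
  have hapos : ∀ q, 0 < a q := fun q => lt_of_lt_of_le hmpos (ham q)
  have hfac : (0 : ℝ) < (Nat.card V).factorial := Nat.cast_pos.2 (Nat.factorial_pos _)
  have hsum : (m : ℝ) ≤ ∑ q, 1 / a q := by
    have h2 : (m : ℝ) * (Nat.card V).factorial ≤ (Nat.card V).factorial * ∑ q, 1 / a q := by
      refine le_trans ?_ hrep2
      exact_mod_cast hs
    rw [mul_comm] at h2
    exact le_of_mul_le_mul_left h2 hfac
  let b : Q → ℝ := fun q => a q / (a q + 1)
  have hb0 : ∀ q, 0 ≤ b q := fun q => div_nonneg (hapos q).le (by linarith [hapos q])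
  have hb1 : ∀ q, b q ≤ 1 := fun q => by
    show a q / (a q + 1) ≤ 1
    rw [div_le_one (by linarith [hapos q])]
    linarith
  have hεm : 1 ≤ ε * m := by
    rw [div_lt_iff₀ hε] at hm
    linarith
  have hbδ : ∀ q, 1 - ε ≤ b q := fun q => by
    show 1 - ε ≤ a q / (a q + 1)
    rw [le_div_iff₀ (by linarith [hapos q])]
    have h3 : ε * m ≤ ε * a q := mul_le_mul_of_nonneg_left (ham q) hε.le
    nlinarith
  have hprod : ∏ q ∈ Finset.univ, b q ≤ ε := by
    have h2 := prod_le a hapos Finset.univ
    have h3 : 0 ≤ ∏ q ∈ Finset.univ, b q := Finset.prod_nonneg fun q _ => hb0 q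
    have h4 : (∏ q ∈ Finset.univ, b q) * m ≤ 1 := by
      refine le_trans (mul_le_mul_of_nonneg_left ?_ h3) h2
      linarith
    have h5 : (∏ q ∈ Finset.univ, b q) * m ≤ ε * m := h4.trans hεm
    exact le_of_mul_le_mul_right h5 hmpos
  have hQne : Nonempty Q := by
    by_contra hne
    rw [not_nonempty_iff] at hne
    rw [Finset.univ_eq_empty, Finset.sum_empty] at hsum
    linarith
  obtain ⟨q₀⟩ := hQne
  -- the choice of the parts
  obtain ⟨S, hSne, hS⟩ : ∃ S : Finset Q, S.Nonempty ∧ |∏ q ∈ S, b q - l| ≤ 2 * ε := by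
    by_cases hl : 1 - ε ≤ l
    · refine ⟨{q₀}, Finset.singleton_nonempty _, ?_⟩
      rw [Finset.prod_singleton, abs_le]
      have h2 := hb1 q₀
      have h3 := hbδ q₀
      constructor <;> linarith
    · push Not at hl
      obtain ⟨S, -, hS⟩ := greedy b ε hb0 hb1 hbδ hε.le (l := max l ε)
        (max_le h1 (by linarith)) Finset.univ (hprod.trans (le_max_right _ _))
      have h5 : |max l ε - l| ≤ ε := by
        rcases max_cases l ε with ⟨h6, h7⟩ | ⟨h6, h7⟩
        · rw [h6, sub_self, abs_zero]; exact hε.le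
        · rw [h6, abs_le]; constructor <;> linarith
      have hS2 : |∏ q ∈ S, b q - l| ≤ 2 * ε := by
        have h6 := abs_sub_le (∏ q ∈ S, b q) (max l ε) l
        linarith
      by_cases hSe : S.Nonempty
      · exact ⟨S, hSe, hS2⟩
      · rw [Finset.not_nonempty_iff_eq_empty] at hSe
        rw [hSe, Finset.prod_empty] at hS2
        refine ⟨{q₀}, Finset.singleton_nonempty _, ?_⟩
        rw [Finset.prod_singleton]
        rw [abs_le] at hS2 ⊢
        have h2 := hb1 q₀
        have h3 := hbδ q₀
        constructor <;> linarith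
  let X : S → SimpleGraph V := fun q => Y (rep q.1).1
  have hquo : quo (GG X) = ∏ q ∈ S, b q := by
    rw [quo_GG (X := X) (fun i => XX_TF _) (fun i => XX_FC _)
      (fun i j => (rep i.1).2.trans (rep j.1).2.symm)
      (fun i j h => Subtype.ext (hrep1 i.1 j.1 h))]
    exact (Finset.prod_coe_sort S b)
  let e := Finite.equivFin (Option (S × V))
  refine ⟨Nat.card (Option (S × V)), ⟨fun x y => GG X (e.symm x) (e.symm y),
    fun x y h => GG_symm X _ _ h⟩, ?_, ?_⟩
  · rw [Finite.card_option, Nat.card_prod, hV]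
    have h2 : 0 < Nat.card S := by
      have : Nonempty S := hSne.to_subtype
      exact Nat.card_pos
    nlinarith
  · have h2 : quo (fun x y => GG X (e.symm x) (e.symm y)) = quo (GG X) := quo_congr e (GG X)
    show |quo (fun x y => GG X (e.symm x) (e.symm y)) - l| ≤ 2 * ε
    rw [h2, hquo]
    exact hS

theorem quo_mem {n : ℕ} (r : Fin n → Fin n → Prop) : 0 ≤ quo r ∧ quo r ≤ 1 := by
  constructor
  · unfold quo; positivity
  · unfold quo
    have h1 : Nat.card (AutG r) ≤ Nat.card (EndS r) := by
      refine Nat.card_le_card_of_injective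
        (fun σ : AutG r => (⟨σ.1, fun a b h => (σ.2 a b).2 h⟩ : EndS r)) ?_
      intro σ τ h
      exact Subtype.ext (DFunLike.coe_injective (congrArg Subtype.val h))
    exact div_le_one_of_le₀ (Nat.cast_le.2 h1) (Nat.cast_nonneg _)

/-- The limiting set is the whole interval `[0, 1]`. -/
theorem result : Lam = Set.Icc 0 1 := by
  ext l
  constructor
  · rintro ⟨n, G, -, h⟩
    exact isClosed_Icc.mem_of_tendsto h (Eventually.of_forall fun k => quo_mem _)
  · rintro ⟨h0, h1⟩
    have key : ∀ k : ℕ, ∃ (n : ℕ) (G : LGraph n), k ≤ n ∧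
        |quo G.Adj - l| ≤ 2 * (1 / ((k : ℝ) + 1)) := fun k =>
      main h0 h1 (by positivity) k
    choose n G hn hG using key
    refine ⟨n, G, tendsto_atTop_mono hn tendsto_id, ?_⟩
    rw [tendsto_iff_dist_tendsto_zero]
    refine squeeze_zero (fun _ => dist_nonneg) (fun k => ?_)
      (g := fun k : ℕ => 2 * (1 / ((k : ℝ) + 1))) ?_
    · rw [Real.dist_eq]; exact hG k
    · have := tendsto_one_div_add_atTop_nhds_zero_nat (𝕜 := ℝ)
      simpa using this.const_mul 2

end Pool.Agent.Results.MP_e2735d_co.Interval
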